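import Pool.Agent.MP_cfa48c_co.H75.FamData
import Pool.Agent.MP_cfa48c_co.H41.Basic

/-! The family of posets with `23 + 4 m` points: order axioms and realizers of the deletions. -/

namespace Pool.Agent.MP_cfa48c_co.H75F

/-- the ground set -/
def Pt (m : ℕ) : Type := Fin 23 ⊕ Fin 4 × Fin m

variable {m : ℕ}

instance : Fintype (Pt m) := inferInstanceAs (Fintype (Fin 23 ⊕ Fin 4 × Fin m))

theorem card_pt : Fintype.card (Pt m) = 23 + 4 * m := by
  change Fintype.card (Fin 23 ⊕ Fin 4 × Fin m) = _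
  simp

/-- old points -/
def od (a : Fin 23) : Pt m := Sum.inl a

/-- new points -/
def nw (k : Fin 4) (j : Fin m) : Pt m := Sum.inr (k, j)

/-- the class of a point -/
def cl : Pt m → Fin 27
  | Sum.inl a => ⟨a.val, by omega⟩
  | Sum.inr p => ⟨23 + p.1.val, by omega⟩

/-- the index of a point -/
def ix : Pt m → ℕ
  | Sum.inl _ => 0
  | Sum.inr p => p.2.val + 1

/-- equality of indices -/
def em (a b : Pt m) : Bool := decide (ix a = ix b)

theorem pt_ext {a b : Pt m} (h1 : cl a = cl b) (h2 : ix a = ix b) : a = b := by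
  rcases a with a | ⟨k, i⟩ <;> rcases b with b | ⟨l, j⟩ <;> simp only [cl, ix, Fin.mk.injEq] at h1 h2
  · exact congrArg Sum.inl (Fin.ext h1)
  · omega
  · omega
  · have e1 : k = l := Fin.ext (by omega)
    have e2 : i = j := Fin.ext (by omega)
    rw [e1, e2]

theorem ok_em (a b : Pt m) : ok (cl a) (cl b) (em a b) = true := by
  rcases a with a | ⟨k, i⟩ <;> rcases b with b | ⟨l, j⟩ <;> simp [ok, cl, em, ix]

theorem ok_new (a : Pt m) (j : ℕ) : ok (cl a) 23 (decide (ix a = j + 1)) = true := by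
  rcases a with a | ⟨k, i⟩ <;> simp [ok, cl, ix]

theorem em_comm (a b : Pt m) : em a b = em b a := by
  simp [em, eq_comm]

instance ptOrder : PartialOrder (Pt m) where
  le a b := lb (cl a) (cl b) (em a b) = true
  le_refl a := by
    have : em a a = true := by simp [em]
    rw [this]
    exact lb_refl _
  le_trans a b c h1 h2 := lb_trans _ _ _ h1 (ok_em a b) _ _ h2 (ok_em b c) _ (ok_em a c)
    (fun h => by simp only [em, decide_eq_true_eq] at h; simp [em, h])
    (fun h => by simp only [em, decide_eq_true_eq] at h; simp [em, h])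
  le_antisymm a b h1 h2 := by
    rw [em_comm b a] at h2
    obtain ⟨h3, h4⟩ := lb_anti _ _ _ h1 h2 (ok_em a b)
    exact pt_ext h3 (by simpa [em] using h4)

theorem le_def (a b : Pt m) : a ≤ b ↔ lb (cl a) (cl b) (em a b) = true := Iff.rfl

theorem le_oo (a b : Fin 23) : (od a : Pt m) ≤ od b ↔ lb a b true = true := Iff.rfl

theorem le_on (a : Fin 23) (k : Fin 4) (j : Fin m) :
    od a ≤ nw k j ↔ lb a (23 + k) false = true := Iff.rfl

theorem le_no (a : Fin 23) (k : Fin 4) (j : Fin m) :
    nw k j ≤ od a ↔ lb (23 + k) a false = true := Iff.rfl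

theorem le_same (k l : Fin 4) (j : Fin m) :
    nw k j ≤ nw l j ↔ lb (23 + k) (23 + l) true = true := by
  have : em (nw k j) (nw l j) = true := by simp [em, nw, ix]
  rw [le_def, this]
  rfl

theorem le_diff (k l : Fin 4) {i j : Fin m} (h : i ≠ j) :
    nw k i ≤ nw l j ↔ lb (23 + k) (23 + l) false = true := by
  have : em (nw k i) (nw l j) = false := by simpa [em, nw, ix, Fin.val_inj] using h
  rw [le_def, this]
  rfl

/-- weak orders that reverse all incomparable pairs of `S` give a realizer of `S` -/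
theorem realize_on {α ι : Type} [Fintype α] [PartialOrder α] [Fintype ι] [Nonempty ι] {t : ℕ}
    (ht : Fintype.card ι = t) (S : Set α) (h : ι → α → ℕ)
    (hm : ∀ i, ∀ a ∈ S, ∀ b ∈ S, a ≤ b → h i a ≤ h i b)
    (hs : ∀ a ∈ S, ∀ b ∈ S, ¬ a ≤ b → ¬ b ≤ a → ∃ i, h i b < h i a) :
    ∃ f : Fin t → α → ℕ, (∀ i, Set.InjOn (f i) S) ∧
      ∀ a ∈ S, ∀ b ∈ S, (a ≤ b ↔ ∀ i, f i a ≤ f i b) := by
  let k : ι → α → ℕ ×ₗ LinearExtension α := fun i a => toLex (h i a, toLinearExtension a)
  have hk : ∀ i, ∀ a ∈ S, ∀ b ∈ S, a ≤ b → k i a ≤ k i b := fun i a ha b hb hab =>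
    Prod.Lex.toLex_mono ⟨hm i a ha b hb hab, toLinearExtension.monotone hab⟩
  have hinj : ∀ i a b, k i a = k i b → a = b := fun i a b hab =>
    congrArg (fun p => (ofLex p).2) hab
  choose r hr using fun i => H41.exists_rank (k i)
  let e : Fin t ≃ ι := (Fintype.equivFinOfCardEq ht).symm
  refine ⟨fun i => r (e i), fun i a _ b _ hab => ?_, fun a ha b hb => ⟨fun hab i => ?_, ?_⟩⟩
  · exact hinj _ a b (le_antisymm ((hr _ a b).1 hab.le) ((hr _ b a).1 hab.ge))
  · exact (hr _ a b).2 (hk _ a ha b hb hab)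
  · intro hg
    have hg' : ∀ i, k i a ≤ k i b := fun i => by
      have := hg (e.symm i)
      simp only [Equiv.apply_symm_apply] at this
      exact (hr i a b).1 this
    by_contra hab
    by_cases hba : b ≤ a
    · obtain ⟨i⟩ := ‹Nonempty ι›
      exact hab (hinj i a b (le_antisymm (hg' i) (hk i b hb a ha hba))).le
    · obtain ⟨i, hi⟩ := hs a ha b hb hab hba
      exact absurd (hg' i) (not_le.2 (Prod.Lex.toLex_lt_toLex.2 (Or.inl hi)))

theorem cl_ne {a : Pt m} (h : a ≠ od 22) : (cl a).val ≠ 22 := by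
  rcases a with a | ⟨k, i⟩
  · intro e
    exact h (congrArg Sum.inl (Fin.ext e))
  · simp only [cl]
    omega

theorem alive_of {y a : Pt m} (h1 : a ≠ od 22) (h2 : a ≠ y) :
    alive (cl y) (cl a) (em a y) = true := by
  have h3 := cl_ne h1
  have h4 : ¬ ((cl a).val = (cl y).val ∧ ix a = ix y) := fun h => h2 (pt_ext (Fin.ext h.1) h.2)
  simp only [alive, ok_em, Bool.true_and, Bool.and_eq_true, bne_iff_ne, Bool.not_eq_true',
    Bool.and_eq_false_iff, beq_eq_false_iff_ne]
  refine ⟨h3, ?_⟩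
  by_cases h5 : (cl a).val = (cl y).val
  · exact Or.inr (by simpa [em] using fun h => h4 ⟨h5, h⟩)
  · exact Or.inl h5

theorem new_of {a : Pt m} (h : 23 ≤ (cl a).val) : ∃ j : Fin m, ix a = j.val + 1 := by
  rcases a with a | ⟨k, i⟩
  · simp only [cl] at h
    omega
  · exact ⟨i, rfl⟩

theorem upper (y : Pt m) (hy : y ≠ od 22) : ∃ f : Fin (m + 3) → Pt m → ℕ,
    (∀ i, Set.InjOn (f i) ({od 22, y}ᶜ : Set (Pt m))) ∧
      ∀ a ∈ ({od 22, y}ᶜ : Set (Pt m)), ∀ b ∈ ({od 22, y}ᶜ : Set (Pt m)),
        (a ≤ b ↔ ∀ i, f i a ≤ f i b) := by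
  have c1 : ∀ a b : Pt m, em a b = true → em a y = em b y := fun a b h => by
    simp only [em, decide_eq_true_eq] at h
    simp [em, h]
  have c2 : ∀ a b : Pt m, em a y = true → em a b = em b y := fun a b h => by
    simp only [em, decide_eq_true_eq] at h
    simp [em, h, eq_comm]
  refine realize_on (ι := Fin 3 ⊕ Fin m) (by simp [add_comm]) _
    (fun o a => o.elim (fun i : Fin 3 => rk (cl y) i (cl a) (em a y)) fun j : Fin m =>
      if ix y = j.val + 1 then rk (cl y) 3 (cl a) (em a y)
      else sv (cl a) (decide (ix a = j.val + 1))) ?_ ?_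
  · intro o a ha b hb hab
    simp only [Set.mem_compl_iff, Set.mem_insert_iff, Set.mem_singleton_iff, not_or] at ha hb
    obtain ⟨h0, h1, h2, h3⟩ := rk_mono _ (cl_ne hy) _ _ (alive_of ha.1 ha.2) _ _
      (alive_of hb.1 hb.2) _ hab (ok_em a b) (c1 a b) (c2 a b)
    rcases o with i | j
    · fin_cases i
      · exact h0
      · exact h1
      · exact h2
    · simp only [Sum.elim_inr]
      split_ifs
      · exact h3
      · refine sv_mono _ _ _ _ _ hab (ok_em a b) (ok_new a j) (ok_new b j) (fun h => ?_) fun h => ?_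
        · simp only [em, decide_eq_true_eq] at h
          simp [h]
        · simp only [decide_eq_true_eq] at h
          simp [em, h, eq_comm]
  · intro a ha b hb hab hba
    simp only [Set.mem_compl_iff, Set.mem_insert_iff, Set.mem_singleton_iff, not_or] at ha hb
    rw [le_def, Bool.not_eq_true] at hab hba
    rw [em_comm b a] at hba
    rcases rk_sep _ (cl_ne hy) _ _ (alive_of ha.1 ha.2) _ _ (alive_of hb.1 hb.2) _ hab hba
      (ok_em a b) (c1 a b) (c2 a b) with h | h | h | h | ⟨h1, h2, h⟩ | ⟨h1, h2, h⟩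
    · exact ⟨Sum.inl 0, h⟩
    · exact ⟨Sum.inl 1, h⟩
    · exact ⟨Sum.inl 2, h⟩
    · by_cases e : (cl y).val < 23
      · rw [rk_old _ e, rk_old _ e] at h
        omega
      · obtain ⟨j, hj⟩ := new_of (not_lt.1 e)
        exact ⟨Sum.inr j, by simpa only [Sum.elim_inr, if_pos hj] using h⟩
    · obtain ⟨j, hj⟩ := new_of h1
      have e : ¬ ix y = j.val + 1 := fun e => by simp [em, hj, e] at h2
      refine ⟨Sum.inr j, ?_⟩
      simp only [Sum.elim_inr, if_neg e]
      have e1 : decide (ix b = j.val + 1) = em a b := by simp [em, hj, eq_comm]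
      rw [e1, decide_eq_true hj]
      exact h
    · obtain ⟨j, hj⟩ := new_of h1
      have e : ¬ ix y = j.val + 1 := fun e => by simp [em, hj, e] at h2
      refine ⟨Sum.inr j, ?_⟩
      simp only [Sum.elim_inr, if_neg e]
      have e1 : decide (ix a = j.val + 1) = em a b := by simp [em, hj]
      rw [e1, decide_eq_true hj]
      exact h

/-- pinned rows -/
def pr : Fin 3 ⊕ Fin m → Pt m := Sum.elim (fun i => od (![2, 10, 8] i)) (nw 0)

/-- pinned columns -/
def pc : Fin 3 ⊕ Fin m → Pt m := Sum.elim (fun i => od (![18, 17, 19] i)) (nw 1)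

theorem pr_pc (k : Fin 3 ⊕ Fin m) : ¬ pr k ≤ pc k := by
  rcases k with i | j
  · exact (by decide : ∀ i : Fin 3, ¬ lb (![2, 10, 8] i : Fin 23) (![18, 17, 19] i : Fin 23) true
      = true) i
  · exact fun h => absurd ((le_same 0 1 j).1 h) (by decide)

theorem pr_pc' {k l : Fin 3 ⊕ Fin m} (h : k ≠ l) : pr k ≤ pc l := by
  rcases k with i | i <;> rcases l with j | j
  · exact (by decide : ∀ i j : Fin 3, i ≠ j →
      lb (![2, 10, 8] i : Fin 23) (![18, 17, 19] j : Fin 23) true = true) i j
      fun e => h (congrArg _ e)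
  · exact (by decide : ∀ i : Fin 3, lb (![2, 10, 8] i : Fin 23) 24 false = true) i
  · exact (by decide : ∀ i : Fin 3, lb 23 (![18, 17, 19] i : Fin 23) false = true) j
  · exact (le_diff 0 1 fun e => h (congrArg _ e)).2 (by decide)

theorem x_pc (k : Fin 3 ⊕ Fin m) : od 22 ≤ pc k := by
  rcases k with i | j
  · exact (by decide : ∀ i : Fin 3, lb 22 (![18, 17, 19] i : Fin 23) true = true) i
  · exact (le_on 22 1 j).2 (by decide)

theorem pr_od (k : Fin 3 ⊕ Fin m) (b : Fin 23) (hb : isM b = true ∨ isC b = true) :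
    pr k ≤ od b := by
  rcases k with i | j
  · exact (by decide : ∀ (i : Fin 3) (b : Fin 23), isM b = true ∨ isC b = true →
      lb (![2, 10, 8] i : Fin 23) b true = true) i b hb
  · exact (by decide : ∀ b : Fin 23, isM b = true ∨ isC b = true → lb 23 b false = true) b hb

theorem pr_nw (k : Fin 3 ⊕ Fin m) (l : Fin 4) (hl : 2 ≤ l.val) (j : Fin m) : pr k ≤ nw l j := by
  rcases k with i | i
  · exact (by decide : ∀ (i : Fin 3) (l : Fin 4), 2 ≤ l.val →
      lb (![2, 10, 8] i : Fin 23) (23 + l) false = true) i l hl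
  · by_cases h : i = j
    · subst h
      exact (le_same 0 l i).2 ((by decide : ∀ l : Fin 4, 2 ≤ l.val →
        lb (23 + (0 : Fin 4)) (23 + l) true = true) l hl)
    · exact (le_diff 0 l h).2 ((by decide : ∀ l : Fin 4, 2 ≤ l.val →
        lb (23 + (0 : Fin 4)) (23 + l) false = true) l hl)

theorem seven_pc {k : Fin 3 ⊕ Fin m} (h : k ≠ Sum.inl 1) : od 7 ≤ pc k := by
  rcases k with i | j
  · exact (by decide : ∀ i : Fin 3, i ≠ 1 → lb 7 (![18, 17, 19] i : Fin 23) true = true) i
      fun e => h (congrArg _ e)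
  · exact (le_on 7 1 j).2 (by decide)

theorem eleven_pc {k : Fin 3 ⊕ Fin m} (h : k ≠ Sum.inl 0) : od 11 ≤ pc k := by
  rcases k with i | j
  · exact (by decide : ∀ i : Fin 3, i ≠ 0 → lb 11 (![18, 17, 19] i : Fin 23) true = true) i
      fun e => h (congrArg _ e)
  · exact (le_on 11 1 j).2 (by decide)

/-- the copy of the old poset in which the third pinned pair is replaced -/
def emb (k : Fin 3 ⊕ Fin m) (a : Fin 23) : Pt m :=
  if a = 8 then pr k else if a = 19 then pc k else od a

theorem emb_le {k : Fin 3 ⊕ Fin m} (h0 : k ≠ Sum.inl 0) (h1 : k ≠ Sum.inl 1) (a b : Fin 23) :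
    emb k a ≤ emb k b ↔ H50.bit H50.ups a b = true := by
  rcases k with i | j
  · have hi : i = 2 := by
      fin_cases i
      · exact absurd rfl h0
      · exact absurd rfl h1
      · rfl
    subst hi
    have e : ∀ a, emb (Sum.inl 2 : Fin 3 ⊕ Fin m) a = od a := by
      intro a
      unfold emb
      split_ifs with e1 e2
      · rw [e1]
        rfl
      · rw [e2]
        rfl
      · rfl
    rw [e, e, le_oo]
    exact (by decide +kernel : ∀ a b : Fin 23,
      (lb a b true = true ↔ H50.bit H50.ups a b = true)) a b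
  · have e1 : ∀ a, (cl (emb (Sum.inr j) a)).val =
        if a = 8 then 23 else if a = 19 then 24 else a.val := by
      intro a
      unfold emb
      split_ifs <;> rfl
    have e2 : ∀ a b, em (emb (Sum.inr j) a) (emb (Sum.inr j) b) =
        decide ((a = 8 ∨ a = 19) ↔ (b = 8 ∨ b = 19)) := by
      have e3 : ∀ a, ix (emb (Sum.inr j) a) = if a = 8 ∨ a = 19 then j.val + 1 else 0 := by
        intro a
        unfold emb
        by_cases f1 : a = 8
        · rw [if_pos f1, if_pos (Or.inl f1)]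
          rfl
        · by_cases f2 : a = 19
          · rw [if_neg f1, if_pos f2, if_pos (Or.inr f2)]
            rfl
          · rw [if_neg f1, if_neg f2, if_neg (not_or.2 ⟨f1, f2⟩)]
            rfl
      intro a b
      unfold em
      rw [e3, e3]
      by_cases f1 : a = 8 ∨ a = 19 <;> by_cases f2 : b = 8 ∨ b = 19 <;> simp [f1, f2]
    rw [le_def, e1, e1, e2]
    exact (by decide +kernel : ∀ a b : Fin 23,
      (lb (if a = 8 then 23 else if a = 19 then 24 else a.val)
        (if b = 8 then 23 else if b = 19 then 24 else b.val)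
        (decide ((a = 8 ∨ a = 19) ↔ (b = 8 ∨ b = 19))) = true ↔ H50.bit H50.ups a b = true)) a b

theorem lower (g : Fin (m + 4) → Pt m → ℕ) (hg : ∀ a b, a ≤ b ↔ ∀ i, g i a ≤ g i b) : False := by
  classical
  have sep : ∀ a b : Pt m, ¬ a ≤ b → ∃ i, g i b < g i a := by
    intro a b h
    rw [hg] at h
    push Not at h
    exact h
  have con : ∀ {i} {a b a' b' : Pt m}, g i b < g i a → g i b' < g i a' → a ≤ b' → a' ≤ b →
      False := by
    intro i a b a' b' h1 h2 h3 h4
    have h5 := (hg _ _).1 h3 i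
    have h6 := (hg _ _).1 h4 i
    omega
  choose σ hσ using fun k => sep _ _ (pr_pc (m := m) k)
  have σi : Function.Injective σ := by
    intro k l h
    by_contra hne
    exact con (hσ k) (h ▸ hσ l) (pr_pc' hne) (pr_pc' (Ne.symm hne))
  obtain ⟨τ, hτ⟩ := sep (od 22) (od 0) (by rw [le_oo]; decide)
  have hτσ : ∀ k, σ k ≠ τ := fun k h =>
    con (hσ k) (h ▸ hτ) (pr_od k 0 (Or.inl rfl)) (x_pc k)
  have all : ∀ i, i = τ ∨ ∃ k, σ k = i := by
    have hinj : Function.Injective (fun o : Option (Fin 3 ⊕ Fin m) => o.elim τ σ) := by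
      rintro (_ | k) (_ | l) h
      · rfl
      · exact absurd h.symm (hτσ l)
      · exact absurd h (hτσ k)
      · exact congrArg some (σi h)
    have hb := (Fintype.bijective_iff_injective_and_card _).2 ⟨hinj, by simp; omega⟩
    intro i
    obtain ⟨_ | k, h⟩ := hb.2 i
    · exact Or.inl h.symm
    · exact Or.inr ⟨k, h⟩
  have top : ∀ z : Pt m, ¬ od 22 ≤ z → (∀ k, pr k ≤ z) → g τ z < g τ (od 22) := by
    intro z h1 h2
    obtain ⟨i, hi⟩ := sep _ _ h1
    rcases all i with rfl | ⟨k, rfl⟩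
    · exact hi
    · exact (con (hσ k) hi (h2 k) (x_pc k)).elim
  have topM : ∀ b : Fin 23, isM b = true → g τ (od b) < g τ (od 22) := fun b hb =>
    top _ ((by decide : ∀ b : Fin 23, isM b = true → ¬ lb 22 b true = true) b hb)
      fun k => pr_od k b (Or.inl hb)
  have h7 : g (σ (Sum.inl 1)) (od 12) < g (σ (Sum.inl 1)) (od 7) := by
    obtain ⟨i, hi⟩ := sep (od 7) (od 12) (by rw [le_oo]; decide)
    rcases all i with rfl | ⟨k, rfl⟩
    · exact (con hi (topM 0 rfl) (by rw [le_oo]; decide) (by rw [le_oo]; decide)).elim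
    · by_cases h : k = Sum.inl 1
      · exact h ▸ hi
      · exact (con hi (hσ k) (seven_pc h) (pr_od k 12 (Or.inr rfl))).elim
  have h11 : g (σ (Sum.inl 0)) (od 13) < g (σ (Sum.inl 0)) (od 11) := by
    obtain ⟨i, hi⟩ := sep (od 11) (od 13) (by rw [le_oo]; decide)
    rcases all i with rfl | ⟨k, rfl⟩
    · exact (con hi (topM 5 rfl) (by rw [le_oo]; decide) (by rw [le_oo]; decide)).elim
    · by_cases h : k = Sum.inl 0
      · exact h ▸ hi
      · exact (con hi (hσ k) (eleven_pc h) (pr_od k 13 (Or.inr rfl))).elim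
  have hκ : ∀ j : Fin m, ∃ k, g (σ k) (nw 3 j) < g (σ k) (nw 2 j) := by
    intro j
    obtain ⟨i, hi⟩ := sep (nw 2 j) (nw 3 j) (by rw [le_same]; decide)
    rcases all i with rfl | ⟨k, rfl⟩
    · exact (con hi (top (nw 2 j) (by rw [le_on]; decide) fun k => pr_nw k 2 le_rfl j) le_rfl
        (by rw [le_on]; decide)).elim
    · exact ⟨k, hi⟩
  choose κ hκ using hκ
  have κi : Function.Injective κ := by
    intro i j h
    by_contra hne
    exact con (hκ i) (h ▸ hκ j) ((le_diff 2 3 hne).2 (by decide))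
      ((le_diff 2 3 (Ne.symm hne)).2 (by decide))
  have κ0 : ∀ j, κ j ≠ Sum.inl 0 := fun j h =>
    con (h ▸ hκ j) h11 (by rw [le_no]; decide) (by rw [le_on]; decide)
  have κ1 : ∀ j, κ j ≠ Sum.inl 1 := fun j h =>
    con (h ▸ hκ j) h7 (by rw [le_no]; decide) (by rw [le_on]; decide)
  obtain ⟨k0, hk0⟩ : ∃ k0, k0 ∉ insert (Sum.inl 0) (insert (Sum.inl 1) (Finset.univ.image κ)) := by
    by_contra h
    push Not at h
    have h1 := Finset.card_le_card (fun k _ => h k : Finset.univ ⊆ _)
    have h2 := Finset.card_insert_le (Sum.inl 0 : Fin 3 ⊕ Fin m)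
      (insert (Sum.inl 1) (Finset.univ.image κ))
    have h3 := Finset.card_insert_le (Sum.inl 1 : Fin 3 ⊕ Fin m) (Finset.univ.image κ)
    have h4 := Finset.card_image_le (s := (Finset.univ : Finset (Fin m))) (f := κ)
    simp only [Finset.card_univ, Fintype.card_sum, Fintype.card_fin] at h1 h4
    omega
  simp only [Finset.mem_insert, Finset.mem_image, Finset.mem_univ, true_and, not_or,
    not_exists] at hk0
  obtain ⟨e0, e1, e2⟩ := hk0
  have allk : ∀ k, k = Sum.inl 0 ∨ k = Sum.inl 1 ∨ k = k0 ∨ ∃ j, κ j = k := by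
    have hinj : Function.Injective
        (Sum.elim ![Sum.inl 0, Sum.inl 1, k0] κ : Fin 3 ⊕ Fin m → Fin 3 ⊕ Fin m) := by
      rintro (i | i) (j | j) h
      · fin_cases i <;> fin_cases j <;>
          first
            | rfl
            | exact absurd (Sum.inl_injective h) (by decide)
            | exact absurd h e0
            | exact absurd h e1
            | exact absurd h.symm e0
            | exact absurd h.symm e1
      · fin_cases i
        · exact absurd h.symm (κ0 j)
        · exact absurd h.symm (κ1 j)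
        · exact absurd h.symm (e2 j)
      · fin_cases j
        · exact absurd h (κ0 i)
        · exact absurd h (κ1 i)
        · exact absurd h (e2 i)
      · exact congrArg Sum.inr (κi h)
    intro k
    obtain ⟨i | j, h⟩ := Finite.injective_iff_surjective.1 hinj k
    · fin_cases i
      · exact Or.inl h.symm
      · exact Or.inr (Or.inl h.symm)
      · exact Or.inr (Or.inr (Or.inl h.symm))
    · exact Or.inr (Or.inr (Or.inr ⟨j, h⟩))
  let sl : Fin 4 → Fin (m + 4) := ![σ (Sum.inl 0), σ (Sum.inl 1), σ k0, τ]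
  refine H50.no_four (fun i a => g (sl i) (emb k0 a)) fun a b =>
    ⟨fun h i => (hg _ _).1 ((emb_le e0 e1 a b).2 h) _, fun h => ?_⟩
  by_contra hab
  obtain ⟨a', b', h1, h2, h3, h4⟩ := crit a b (by simpa using hab)
  suffices H : ∃ i, g (sl i) (emb k0 b') < g (sl i) (emb k0 a') by
    obtain ⟨i, hi⟩ := H
    have h5 := (hg _ _).1 ((emb_le e0 e1 _ _).2 h1) (sl i)
    have h6 := (hg _ _).1 ((emb_le e0 e1 _ _).2 h2) (sl i)
    have h7 := h i
    omega
  rcases h4 with ⟨h5, h6⟩ | ⟨rfl, rfl⟩ | ⟨rfl, rfl⟩ | ⟨rfl, rfl⟩ | ⟨rfl, h5⟩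
  · obtain ⟨i, hi⟩ := sep (emb k0 a') (emb k0 b') (by rw [emb_le e0 e1, h3]; simp)
    rcases all i with rfl | ⟨k, rfl⟩
    · exact ⟨3, hi⟩
    · rcases allk k with rfl | rfl | rfl | ⟨j, rfl⟩
      · exact ⟨0, hi⟩
      · exact ⟨1, hi⟩
      · exact ⟨2, hi⟩
      · have f1 : emb k0 b' = od b' := by
          unfold emb
          rw [if_neg (by rintro rfl; exact absurd h6 (by decide)),
            if_neg (by rintro rfl; exact absurd h6 (by decide))]
        refine (con hi (hκ j) ?_ ?_).elim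
        · unfold emb
          split_ifs with f2 f3
          · exact pr_nw k0 3 (by decide) j
          · subst f3
            exact absurd h5 (by decide)
          · exact (by decide : ∀ a : Fin 23, a.val < 12 → lb a 26 false = true) a' h5
        · rw [f1]
          exact (by decide : ∀ b : Fin 23, isC b = true → lb 25 b false = true) b' h6
  · exact ⟨0, hσ (Sum.inl 0)⟩
  · exact ⟨1, hσ (Sum.inl 1)⟩
  · exact ⟨2, hσ k0⟩
  · have f1 : emb k0 b' = od b' := by
      unfold emb
      rw [if_neg (by rintro rfl; exact absurd h5 (by decide)),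
        if_neg (by rintro rfl; exact absurd h5 (by decide))]
    refine ⟨3, ?_⟩
    rw [f1]
    exact topM b' h5

end Pool.Agent.MP_cfa48c_co.H75F
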