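import Pool.Agent.MP_cfa48c_co.H41.Main

/-! The removable pair conjecture in dimension at most four. -/

namespace Pool.Agent.MP_cfa48c_co.H75

open Pool.Agent.MP_cfa48c_co.H41

variable {α : Type} [Fintype α] [PartialOrder α]

omit [Fintype α] in
lemma lex_mono (l k : α → ℕ) (hl : Monotone l) (hk : ∀ a b, a ≤ b → l a = l b → k a ≤ k b) :
    Monotone fun z => toLex (l z, k z) := fun a b hab => by
  rw [Prod.Lex.toLex_le_toLex]
  exact (hl hab).lt_or_eq.imp id fun h => ⟨h, hk a b hab h⟩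

omit [Fintype α] in
lemma rz_mono {S : Set α} {s t : ℕ} (hs : 1 ≤ s) (hst : s ≤ t) (h : Rz S s) : Rz S t := by
  obtain ⟨f, hf⟩ := h
  refine ⟨fun i => if h : i.val < s then f ⟨i.val, h⟩ else f ⟨0, hs⟩, fun a ha b hb => ?_⟩
  rw [hf a ha b hb]
  refine ⟨fun h i => ?_, fun h i => ?_⟩
  · dsimp only
    split_ifs
    · exact h _
    · exact h _
  · have := h ⟨i.val, lt_of_lt_of_le i.2 hst⟩
    simpa using this

omit [Fintype α] in
lemma sep {S : Set α} {t : ℕ} {f : Fin t → α → ℕ}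
    (hf : ∀ a ∈ S, ∀ b ∈ S, (a ≤ b ↔ ∀ i, f i a ≤ f i b)) {a b : α} (ha : a ∈ S) (hb : b ∈ S)
    (hab : ¬ a ≤ b) : ∃ i, f i b < f i a := by
  rw [hf a ha b hb] at hab
  push Not at hab
  exact hab

lemma rz_strict {S : Set α} {t : ℕ} (h : Rz S t) : ∃ f : Fin t → α → ℕ,
    (∀ a ∈ S, ∀ b ∈ S, (a ≤ b ↔ ∀ i, f i a ≤ f i b)) ∧
      ∀ i, ∀ a ∈ S, ∀ b ∈ S, a < b → f i a < f i b := by
  obtain ⟨f, hf⟩ := h
  choose r hr using fun i => exists_rank fun a : α => toLex (f i a, (Set.Iio a).ncard)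
  have h1 : ∀ i, ∀ a ∈ S, ∀ b ∈ S, a < b → r i a < r i b := by
    intro i a ha b hb hab
    rw [← not_le, hr, not_le, Prod.Lex.toLex_lt_toLex]
    refine ((hf a ha b hb).1 hab.le i).lt_or_eq.imp id fun h => ⟨h, ?_⟩
    exact Set.ncard_lt_ncard ⟨Set.Iio_subset_Iio hab.le, fun e => lt_irrefl a (e hab)⟩ (Set.toFinite _)
  refine ⟨r, fun a ha b hb => ⟨fun hab i => ?_, fun h => (hf a ha b hb).2 fun i => ?_⟩, h1⟩
  · rcases hab.eq_or_lt with rfl | hab
    · exact le_rfl
    · exact (h1 i a ha b hb hab).le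
  · have h2 := (hr i a b).1 (h i)
    rw [Prod.Lex.toLex_le_toLex] at h2
    exact h2.elim le_of_lt fun h => h.1.le

/-- a point with exactly one point above it -/
lemma rem_top {x u : α} (hxu : x < u) (hU : ∀ q, x < q → q = u) : Rem x u := by
  classical
  have hu : ∀ q, ¬ u < q := fun q h => h.ne' (hU q (hxu.trans h))
  refine rem_split (fun z => if z = u then 2 else if z = x then 1 else 0)
    (fun z => if z < x then 0 else if z = x then 1 else if z < u then 2 else if z = u then 3 else 4)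
    ?_ ?_ ?_ ?_
  · intro a b hab
    rcases hab.eq_or_lt with rfl | hab
    · exact le_rfl
    · have h1 := hU b
      have h2 := hu b
      dsimp only
      split_ifs <;> first | omega | (subst_vars; tauto)
  · intro a b hab
    rcases hab.eq_or_lt with rfl | hab
    · exact le_rfl
    · have h1 : b < x → a < x := hab.trans
      have h2 : b < u → a < u := hab.trans
      have h3 : a < x → a < u := fun h => h.trans hxu
      have h4 : b < x → b < u := fun h => h.trans hxu
      have h5 := lt_irrefl a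
      have h6 := hab.asymm
      dsimp only
      split_ifs <;> first | omega | (subst_vars; tauto)
  · intro a b hab hba hm
    have h1 : ¬ a < b := fun h => hab h.le
    have h2 : ¬ b < a := fun h => hba h.le
    have h3 : a ≠ b := fun h => hab h.le
    have h4 : a < x → a < u := fun h => h.trans hxu
    have h5 := lt_irrefl a
    have h6 := lt_irrefl b
    have h7 := hxu.ne
    have h8 := hxu.asymm
    rcases hm with rfl | rfl | rfl | rfl
    · left
      split_ifs <;> first | omega | (subst_vars; tauto)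
    · left
      split_ifs <;> first | omega | (subst_vars; tauto)
    · right
      split_ifs <;> first | omega | (subst_vars; tauto)
    · right
      split_ifs <;> first | omega | (subst_vars; tauto)
  · intro a b hab hba
    have h1 : ¬ a < b := fun h => hab h.le
    have h3 : a ≠ b := fun h => hab h.le
    have h4 : a < x → a < u := fun h => h.trans hxu
    have h6 := lt_irrefl b
    have h8 := hxu.asymm
    by_cases e1 : b = u
    · right
      subst e1
      split_ifs <;> first | omega | (subst_vars; tauto)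
    · by_cases e2 : b = x
      · right
        subst e2
        split_ifs <;> first | omega | (subst_vars; tauto)
      · left
        simp [e1, e2]

/-- substitution of a module -/
lemma rz_module (M : Set α) {x p q a c : α} (hx : x ∈ M) (hp : p ∈ M) (hq : q ∈ M)
    (hxp : x ≠ p) (hxq : x ≠ q) (ha : a ∉ M) (hc : c ∉ M)
    (hM : ∀ w ∉ M, ∀ m ∈ M, (w ≤ m ↔ w ≤ x) ∧ (m ≤ w ↔ x ≤ w))
    (h1 : Rz ({p, q}ᶜ : Set α) 2) (h2 : Rz ({a, c}ᶜ : Set α) 2) : Rz (Set.univ : Set α) 3 := by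
  classical
  obtain ⟨f, hf, hs⟩ := rz_strict h1
  obtain ⟨g, hg⟩ := h2
  have m1 : ∀ w, (if w ∈ M then x else w) ∈ ({p, q}ᶜ : Set α) := by
    intro w
    simp only [Set.mem_compl_iff, Set.mem_insert_iff, Set.mem_singleton_iff, not_or]
    split_ifs with h
    · exact ⟨hxp, hxq⟩
    · exact ⟨fun e => h (e ▸ hp), fun e => h (e ▸ hq)⟩
  have m2 : ∀ w ∈ M, w ∈ ({a, c}ᶜ : Set α) := by
    intro w h
    simp only [Set.mem_compl_iff, Set.mem_insert_iff, Set.mem_singleton_iff, not_or]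
    exact ⟨fun e => ha (e ▸ h), fun e => hc (e ▸ h)⟩
  have key : ∀ u v, ¬ (u ∈ M ∧ v ∈ M) →
      ((if u ∈ M then x else u) ≤ (if v ∈ M then x else v) ↔ u ≤ v) := by
    intro u v h
    split_ifs with e1 e2 e2
    · exact absurd ⟨e1, e2⟩ h
    · exact (hM v e2 u e1).2.symm
    · exact (hM u e1 v e2).1.symm
    · exact Iff.rfl
  let pr : α → α := fun w => if w ∈ M then x else w
  have hpr : ∀ u v, u ≤ v → pr u ≤ pr v := by
    intro u v h
    by_cases e : u ∈ M ∧ v ∈ M
    · simp only [pr, if_pos e.1, if_pos e.2, le_refl]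
    · exact (key u v e).2 h
  have heq : ∀ u v, u ≤ v → ¬ (u ∈ M ∧ v ∈ M) → u ≠ v → pr u < pr v := by
    intro u v h e hne
    refine (hpr u v h).lt_of_ne fun e' => ?_
    simp only [pr] at e'
    split_ifs at e' with e1 e2 e2
    · exact e ⟨e1, e2⟩
    · exact e2 (e' ▸ hx)
    · exact e1 (e' ▸ hx)
    · exact hne e'
  refine rz_of (fun o z => toLex (f (o.getD 0) (pr z), if z ∈ M then g (o.getD 0) z else 0))
    (fun o => lex_mono _ _ (fun u v h => (hf _ (m1 u) _ (m1 v)).1 (hpr u v h) _) fun u v h e => ?_)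
    fun u v huv _ => ?_
  · by_cases e1 : u ∈ M ∧ v ∈ M
    · rw [if_pos e1.1, if_pos e1.2]
      exact (hg u (m2 u e1.1) v (m2 v e1.2)).1 h _
    · by_cases e2 : u = v
      · rw [e2]
      · exact absurd e (hs _ _ (m1 u) _ (m1 v) (heq u v h e1 e2)).ne
  · by_cases e1 : u ∈ M ∧ v ∈ M
    · obtain ⟨i, hi⟩ := sep hg (m2 u e1.1) (m2 v e1.2) huv
      refine ⟨some i, Prod.Lex.toLex_lt_toLex.2 (Or.inr ⟨?_, ?_⟩)⟩
      · simp only [pr, if_pos e1.1, if_pos e1.2]
      · simpa only [if_pos e1.1, if_pos e1.2, Option.getD_some] using hi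
    · obtain ⟨i, hi⟩ := sep hf (m1 u) (m1 v) fun h => huv ((key u v e1).1 h)
      exact ⟨some i, Prod.Lex.toLex_lt_toLex.2 (Or.inl hi)⟩

/-- gluing along the principal down-set of `x` -/
lemma rz_glue {x z z' d : α} (hz : x < z) (hz' : x < z') (hd : d < x) (f : Fin 2 → α → ℕ)
    (hf : ∀ a ∈ ({z, z'}ᶜ : Set α), ∀ b ∈ ({z, z'}ᶜ : Set α), (a ≤ b ↔ ∀ i, f i a ≤ f i b))
    (j : Fin 2) (hj : ∀ v, ¬ v ≤ x → ¬ x ≤ v → f j x < f j v)
    (h2 : Rz ({x, d}ᶜ : Set α) 2) : Rz (Set.univ : Set α) 3 := by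
  classical
  obtain ⟨g, hg⟩ := h2
  have m1 : ∀ w, ¬ x < w → w ∈ ({z, z'}ᶜ : Set α) := by
    intro w h
    simp only [Set.mem_compl_iff, Set.mem_insert_iff, Set.mem_singleton_iff, not_or]
    exact ⟨fun e => h (e ▸ hz), fun e => h (e ▸ hz')⟩
  have m2 : ∀ w, ¬ w ≤ x → w ∈ ({x, d}ᶜ : Set α) := by
    intro w h
    simp only [Set.mem_compl_iff, Set.mem_insert_iff, Set.mem_singleton_iff, not_or]
    exact ⟨fun e => h e.le, fun e => h (e ▸ hd.le)⟩
  have two : ∀ i : Fin 2, i = j ∨ i = j + 1 :=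
    (by decide : ∀ j i : Fin 2, i = j ∨ i = j + 1) j
  let l : Option (Fin 2) → α → ℕ := fun o w =>
    o.elim (if x < w then 1 else 0) fun _ => if w ≤ x then 0 else 1
  let k : Option (Fin 2) → α → ℕ := fun o w =>
    o.elim (if x < w then 0 else f (j + 1) w) fun i => if w ≤ x then f j w else g i w
  refine rz_of (fun o w => toLex (l o w, k o w)) (fun o => lex_mono _ _ ?_ ?_) fun u v huv hvu => ?_
  · intro u v h
    have h1 : x < u → x < v := fun e => e.trans_le h
    have h3 : v ≤ x → u ≤ x := h.trans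
    rcases o with _ | i
    · simp only [l, Option.elim]
      split_ifs <;> first | omega | tauto
    · simp only [l, Option.elim]
      split_ifs <;> first | omega | tauto
  · intro u v h e
    rcases o with _ | i
    · simp only [l, k, Option.elim] at e ⊢
      by_cases e1 : x < u <;> by_cases e2 : x < v <;> simp only [e1, e2, if_true, if_false] at e ⊢
      · exact le_rfl
      · omega
      · omega
      · exact (hf u (m1 u e1) v (m1 v e2)).1 h _
    · simp only [l, k, Option.elim] at e ⊢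
      by_cases e1 : u ≤ x <;> by_cases e2 : v ≤ x <;> simp only [e1, e2, if_true, if_false] at e ⊢
      · exact (hf u (m1 u e1.not_gt) v (m1 v e2.not_gt)).1 h _
      · omega
      · omega
      · exact (hg u (m2 u e1) v (m2 v e2)).1 h _
  · have low : ¬ x < u → ¬ x < v → f (j + 1) v < f (j + 1) u →
        ∃ o, toLex (l o v, k o v) < toLex (l o u, k o u) := fun e1 e2 h =>
      ⟨none, Prod.Lex.toLex_lt_toLex.2 (Or.inr (by simpa [l, k, e1, e2] using h))⟩
    by_cases e1 : u ≤ x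
    · have e3 : ¬ x ≤ v := fun h => huv (e1.trans h)
      have e4 : ¬ x < v := fun h => e3 h.le
      obtain ⟨i, hi⟩ := sep hf (m1 u e1.not_gt) (m1 v e4) huv
      rcases two i with rfl | rfl
      · by_cases e2 : v ≤ x
        · exact ⟨some 0, Prod.Lex.toLex_lt_toLex.2 (Or.inr (by simpa [l, k, e1, e2] using hi))⟩
        · have h1 := hj v e2 e3
          have h3 := (hf u (m1 u e1.not_gt) x (m1 x (lt_irrefl x))).1 e1 i
          omega
      · exact low e1.not_gt e4 hi
    · by_cases e2 : v ≤ x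
      · exact ⟨some 0, Prod.Lex.toLex_lt_toLex.2 (Or.inl (by simp [l, e1, e2]))⟩
      · obtain ⟨i, hi⟩ := sep hg (m2 u e1) (m2 v e2) huv
        exact ⟨some i, Prod.Lex.toLex_lt_toLex.2 (Or.inr (by simpa [l, k, e1, e2] using hi))⟩

/-- incomparable points -/
def Inc (p q : α) : Prop := ¬ p ≤ q ∧ ¬ q ≤ p

/-- the component of `a` in the set of points incomparable to `x` -/
def Comp (a x : α) : Set α :=
  {k | Relation.ReflTransGen (fun p q => Inc q x ∧ (p ≤ q ∨ q ≤ p)) a k}

omit [Fintype α] in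
lemma comp_inc {a x : α} (h : Inc a x) : ∀ k ∈ Comp a x, Inc k x := by
  intro k hk
  induction hk with
  | refl => exact h
  | tail _ h2 _ => exact h2.1

omit [Fintype α] in
lemma comp_sub {a x p : α} (h : ∀ k ∈ Comp a x, Inc k p) : Comp a x ⊆ Comp a p := by
  intro k hk
  induction hk with
  | refl => exact Relation.ReflTransGen.refl
  | tail h1 h2 ih => exact Relation.ReflTransGen.tail ih ⟨h _ (h1.tail h2), h2.2⟩

omit [Fintype α] in
lemma comp_side {a x : α} {S : Set α} (hx : x ∈ S) (hS : ∀ v, Inc v x → v ∈ S) (ha : Inc a x)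
    (f : Fin 2 → α → ℕ) (hf : ∀ a ∈ S, ∀ b ∈ S, (a ≤ b ↔ ∀ i, f i a ≤ f i b)) :
    ∃ j, ∀ v ∈ Comp a x, f j x < f j v := by
  have two : ∀ i j k : Fin 2, i ≠ j → k = i ∨ k = j := by decide
  obtain ⟨j, hj⟩ := sep hf (hS a ha) hx ha.1
  obtain ⟨j', hj'⟩ := sep hf hx (hS a ha) ha.2
  have hne : j ≠ j' := by
    rintro rfl
    omega
  have key : ∀ v ∈ Comp a x, f j x < f j v ∧ f j' v < f j' x := by
    intro v hv
    induction hv with
    | refl => exact ⟨hj, hj'⟩
    | @tail p q h1 h2 ih =>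
      have hp := hS p (comp_inc ha p h1)
      have hq := hS q h2.1
      obtain ⟨i, hi⟩ := sep hf hq hx h2.1.1
      obtain ⟨i', hi'⟩ := sep hf hx hq h2.1.2
      rcases h2.2 with h | h
      · have h3 := (hf p hp q hq).1 h j
        rcases two j j' i' hne with rfl | rfl
        · omega
        · exact ⟨by omega, hi'⟩
      · have h3 := (hf q hq p hp).1 h j'
        rcases two j j' i hne with rfl | rfl
        · exact ⟨hi, by omega⟩
        · omega
  exact ⟨j, fun v hv => (key v hv).1⟩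

theorem rem_of_four (h3 : 3 ≤ Fintype.card α) (h4 : Rz (Set.univ : Set α) 4) :
    ∃ p q : α, p ≠ q ∧ Rem p q := by
  classical
  by_contra hno
  have hN : ∀ p q : α, p ≠ q → ¬ Rem p q := fun p q h1 h2 => hno ⟨p, q, h1, h2⟩
  have hmm : ∀ a c : α, a ≠ c → (∀ d, ¬ d < a) → (∀ q, ¬ c < q) →
      a ≤ c ∧ ∃ z, Inc a z ∧ Inc c z := by
    intro a c hne ha hc
    by_contra h
    refine hN a c hne (rem_free hne (Or.inl ha) (Or.inl hc) fun hac z => ?_)
    by_contra hz
    refine h ⟨hac, z, ?_⟩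
    unfold Inc
    tauto
  obtain ⟨z₀⟩ : Nonempty α := Fintype.card_pos_iff.1 (by omega)
  obtain ⟨a, -, ha⟩ := exists_min_le z₀
  obtain ⟨b, hb⟩ := not_forall.1 (not_all_eq h3 a)
  obtain ⟨c, hbc, hc⟩ := exists_max_ge b
  have hne : a ≠ c := by
    rintro rfl
    exact hb (hbc.eq_or_lt.resolve_right (ha b))
  obtain ⟨hac, hZ⟩ := hmm a c hne ha hc
  obtain ⟨x, ⟨hax, hcx⟩, hmax⟩ := Set.exists_max_image {z | Inc a z ∧ Inc c z}
    (fun z => (Comp a z).ncard) (Set.toFinite _) hZ
  obtain ⟨d, hd⟩ : ∃ d, d < x := by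
    by_contra h
    push Not at h
    exact hcx.2 (hmm x c (fun e => hcx.2 e.le) h hc).1
  obtain ⟨z, hz⟩ : ∃ z, x < z := by
    by_contra h
    push Not at h
    exact hax.1 (hmm a x (fun e => hax.1 e.le) ha h).1
  obtain ⟨z', hz', hzz⟩ : ∃ z', x < z' ∧ z' ≠ z := by
    by_contra h
    push Not at h
    exact hN x z hz.ne (rem_top hz h)
  have m1 : ∀ v, ¬ x < v → v ∈ ({z', z}ᶜ : Set α) := by
    intro w h
    simp only [Set.mem_compl_iff, Set.mem_insert_iff, Set.mem_singleton_iff, not_or]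
    exact ⟨fun e => h (e ▸ hz'), fun e => h (e ▸ hz)⟩
  have hT : ∀ p q : α, p ≠ q → ∃ t, 1 ≤ t ∧ Rz ({p, q}ᶜ : Set α) t ∧
      ¬ Rz (Set.univ : Set α) (t + 1) := by
    intro p q h
    have := hN p q h
    unfold Rem at this
    push Not at this
    exact this
  have h3' : ¬ Rz (Set.univ : Set α) 3 := by
    intro h
    obtain ⟨t, h1, ⟨f, hf⟩, h5⟩ := hT z' z hzz
    have ht : t = 1 := by
      by_contra e
      exact h5 (rz_mono (by omega) (by omega) h)
    subst ht
    have ma := m1 a fun e => hax.2 e.le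
    have mx := m1 x (lt_irrefl x)
    obtain ⟨i, hi⟩ := sep hf ma mx hax.1
    obtain ⟨i', hi'⟩ := sep hf mx ma hax.2
    rw [Subsingleton.elim i' i] at hi'
    omega
  have h2 : ∀ p q : α, p ≠ q → Rz ({p, q}ᶜ : Set α) 2 := by
    intro p q h
    obtain ⟨t, h1, h5, h6⟩ := hT p q h
    refine rz_mono h1 ?_ h5
    by_contra e
    exact h6 (rz_mono (by omega) (by omega) h4)
  have haK : a ∈ Comp a x := Relation.ReflTransGen.refl
  have hcK : c ∈ Comp a x := Relation.ReflTransGen.single ⟨hcx, Or.inl hac⟩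
  by_cases hcon : ∀ v, Inc v x → v ∈ Comp a x
  · obtain ⟨f, hf⟩ := h2 z' z hzz
    obtain ⟨j, hj⟩ := comp_side (m1 x (lt_irrefl x)) (fun v hv => m1 v fun e => hv.2 e.le) hax f hf
    exact h3' (rz_glue hz' hz hd f hf j (fun v e1 e2 => hj v (hcon v ⟨e1, e2⟩)) (h2 x d hd.ne'))
  · push Not at hcon
    obtain ⟨p, hpx, hp⟩ := hcon
    let M : Set α := {q | ∀ k ∈ Comp a x, Inc k q}
    have hxM : x ∈ M := comp_inc hax
    have hpM : p ∈ M := fun k hk =>
      ⟨fun h => hp (Relation.ReflTransGen.tail hk ⟨hpx, Or.inl h⟩),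
        fun h => hp (Relation.ReflTransGen.tail hk ⟨hpx, Or.inr h⟩)⟩
    have hK : ∀ q ∈ M, Comp a x = Comp a q := fun q hq =>
      Set.eq_of_subset_of_ncard_le (comp_sub hq) (hmax q ⟨hq a haK, hq c hcK⟩) (Set.toFinite _)
    have huni : ∀ w ∉ M, (∀ m ∈ M, Inc w m) ∨ (∀ m ∈ M, w < m) ∨ ∀ m ∈ M, m < w := by
      intro w hw
      by_cases hwK : w ∈ Comp a x
      · exact Or.inl fun m hm => hm w hwK
      have hw' : ∃ k ∈ Comp a x, k ≤ w ∨ w ≤ k := by
        by_contra h
        push Not at h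
        exact hw fun k hk => h k hk
      obtain ⟨k, hk, hkw⟩ := hw'
      have hcomp : ∀ m ∈ M, w ≤ m ∨ m ≤ w := by
        intro m hm
        by_contra h
        rw [not_or] at h
        refine hwK ?_
        rw [hK m hm] at hk ⊢
        exact Relation.ReflTransGen.tail hk ⟨h, hkw⟩
      have hne' : ∀ m ∈ M, w ≠ m := fun m hm e => hw (e ▸ hm)
      rcases hkw with h | h
      · exact Or.inr (Or.inr fun m hm => ((hcomp m hm).resolve_left
          fun e => (hm k hk).1 (h.trans e)).lt_of_ne (hne' m hm).symm)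
      · exact Or.inr (Or.inl fun m hm => ((hcomp m hm).resolve_right
          fun e => (hm k hk).2 (e.trans h)).lt_of_ne (hne' m hm))
    have hM : ∀ w ∉ M, ∀ m ∈ M, (w ≤ m ↔ w ≤ x) ∧ (m ≤ w ↔ x ≤ w) := by
      intro w hw m hm
      rcases huni w hw with h | h | h
      · exact ⟨iff_of_false (h m hm).1 (h x hxM).1, iff_of_false (h m hm).2 (h x hxM).2⟩
      · exact ⟨iff_of_true (h m hm).le (h x hxM).le,
          iff_of_false (h m hm).not_ge (h x hxM).not_ge⟩
      · exact ⟨iff_of_false (h m hm).not_ge (h x hxM).not_ge,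
          iff_of_true (h m hm).le (h x hxM).le⟩
    have hxp : x ≠ p := fun e => hpx.1 e.ge
    by_cases hq : ∃ q ∈ M, q ≠ x ∧ q ≠ p
    · obtain ⟨q, hqM, e1, e2⟩ := hq
      exact h3' (rz_module M hxM hpM hqM hxp e1.symm (fun h => (h a haK).1 le_rfl)
        (fun h => (h c hcK).1 le_rfl) hM (h2 p q e2.symm) (h2 a c hne))
    · push Not at hq
      have hout : ∀ w, w ≠ x → w ≠ p → w ∉ M := fun w e1 e2 h => e2 (hq w h e1)
      refine hN x p hxp (rem_twin hxp (fun w => ⟨fun h => ?_, fun h => ?_⟩) fun w h => ?_)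
      · have e : w ≠ p := fun e => hpx.1 (e ▸ h.le)
        exact ((hM w (hout w h.ne e) p hpM).1.2 h.le).lt_of_ne e
      · have e : w ≠ x := fun e => hpx.2 (e ▸ h.le)
        exact ((hM w (hout w e h.ne) p hpM).1.1 h.le).lt_of_ne e
      · have e : w ≠ p := fun e => hpx.2 (e ▸ h.le)
        exact ((hM w (hout w h.ne' e) p hpM).2.2 h.le).lt_of_ne e.symm

end Pool.Agent.MP_cfa48c_co.H75
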